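import Pool.Agent.K9h90.HB.Seed2

set_option autoImplicit false

open Finset Pool.Agent.H273R2.Bent Pool.Agent.H236R2.HB

namespace Pool.Agent.K9h90.HB

variable (m w' : ℕ) [NeZero m]

/-- vertices and edges -/
abbrev VE : Type := ZMod m ⊕ (ZMod m × Fin w')

open Classical in
/-- the star of the vertex `p` -/
noncomputable def st (p : ZMod m) : Finset (VE m w') :=
  univ.filter fun v => Sum.elim (fun q => q = p)
    (fun e => e.1 = p ∨ e.1 + del m w' e.2 = p) v

variable {m w'}

theorem mem_st_inl {p q : ZMod m} : (Sum.inl q : VE m w') ∈ st m w' p ↔ q = p := by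
  simp [st]

theorem mem_st_inr {p : ZMod m} {e : ZMod m × Fin w'} :
    (Sum.inr e : VE m w') ∈ st m w' p ↔ e.1 = p ∨ e.1 + del m w' e.2 = p := by
  simp [st]

theorem disj_st (hm : 2 * 3 ^ w' < m) (p : ZMod m) (j : Fin w') :
    Disjoint (st m w' p) ((st m w' (p + del m w' j)).erase (Sum.inr (p, j))) := by
  rw [disjoint_left]
  intro v hv hv'
  rw [mem_erase] at hv'
  obtain ⟨hne, hv'⟩ := hv'
  rcases v with q | ⟨u, i⟩
  · rw [mem_st_inl] at hv hv'
    rw [hv] at hv'
    exact del_ne_zero hm j (by simpa using hv'.symm)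
  · rw [mem_st_inr] at hv hv'
    simp only at hv hv'
    rcases hv with h | h <;> rcases hv' with h' | h'
    · rw [h] at h'
      exact del_ne_zero hm j (by simpa using h'.symm)
    · apply hne
      rw [h] at h'
      have : i = j := del_inj hm (add_left_cancel h')
      rw [h, this]
    · rw [h'] at h
      exact del_add_ne_zero hm j i (by linear_combination h)
    · rw [h] at h'
      exact del_ne_zero hm j (by simpa using h'.symm)

theorem disj_st2 (hm : 2 * 3 ^ w' < m) (p : ZMod m) (j j' : Fin w') (hj : j ≠ j') :
    Disjoint (st m w' (p + del m w' j)) (st m w' (p + del m w' j')) := by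
  rw [disjoint_left]
  intro v hv hv'
  rcases v with q | ⟨u, i⟩
  · rw [mem_st_inl] at hv hv'
    rw [hv] at hv'
    exact hj (del_inj hm (add_left_cancel hv'))
  · rw [mem_st_inr] at hv hv'
    simp only at hv hv'
    rcases hv with h | h <;> rcases hv' with h' | h'
    · rw [h] at h'
      exact hj (del_inj hm (add_left_cancel h'))
    · rw [h] at h'
      exact del_add_ne hm j i j' (by linear_combination h')
    · rw [h'] at h
      exact del_add_ne hm j' i j (by linear_combination h)
    · rw [h] at h'
      exact hj (del_inj hm (add_left_cancel h'))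

theorem gseed (a w : ℕ) (ha : 1 ≤ a) (φ : (Fin w → ZMod 2) → ZMod 2)
    (h1 : ∀ v, φ (fun j => v j + 1) = φ v + 1)
    (h2 : ∀ (ι : Type) [DecidableEq ι] (l : Fin w → (ι → ZMod 2) → ZMod 2) (A : Fin w → Finset ι),
      (∀ j, Hm (A j) 1 (l j)) → (∀ i j, i ≠ j → Disjoint (A i) (A j)) →
      Hm (univ.biUnion A) (2 ^ a) (fun x => φ (fun j => l j x)))
    (hw : w ≤ w') (hm : 2 * 3 ^ w' < m) : Nonempty (GSeed (2 ^ a + 2) (VE m w')) := by
  classical
  have e2 : ∀ a : ZMod 2, a + a = 0 := by decide
  have e3 : ∀ a : ZMod 2, a * a = a := by decide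
  have e4 : ∀ a : ZMod 2, a = 0 ∨ a = 1 := by decide
  -- the edges used at a vertex
  let c : Fin w → Fin w' := Fin.castLE hw
  have hc : Function.Injective c := Fin.castLE_injective hw
  let S : ZMod m → Finset (VE m w') := st m w'
  let Q : ZMod m → Fin w' → Finset (VE m w') := fun p j =>
    (st m w' (p + del m w' j)).erase (Sum.inr (p, j))
  let B : VE m w' → Finset (VE m w') := Sum.elim
    (fun p => univ.image fun j : Fin w => (Sum.inl (p + del m w' (c j)) : VE m w')) (fun _ => ∅)
  -- membership of the edge variable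
  have hedge : ∀ p j, (Sum.inr (p, j) : VE m w') ∈ S p := fun p j => by
    rw [mem_st_inr]; exact Or.inl rfl
  have hedge' : ∀ p j, (Sum.inr (p, j) : VE m w') ∈ S (p + del m w' j) := fun p j => by
    rw [mem_st_inr]; exact Or.inr rfl
  have hQ : ∀ p j d, lf (Q p j) d = lf (S (p + del m w' j)) d + d (Sum.inr (p, j)) :=
    fun p j d => lf_erase (hedge' p j) d
  -- intersections with `B`
  have hBmem : ∀ l v, v ∈ B (Sum.inl l) ↔ ∃ j : Fin w, v = Sum.inl (l + del m w' (c j)) := by
    intro l v
    simp only [B, Sum.elim_inl, mem_image, mem_univ, true_and]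
    exact ⟨fun ⟨j, h⟩ => ⟨j, h.symm⟩, fun ⟨j, h⟩ => ⟨j, h.symm⟩⟩
  have hBe : ∀ e, B (Sum.inr e) = ∅ := fun _ => rfl
  -- the kernel function
  let κ : ZMod m → (VE m w' → ZMod 2) → ZMod 2 := fun p d =>
    lf (S p) d * φ (fun j => lf (Q p (c j)) d)
  have hκ : ∀ p, Hm (S p ∪ univ.biUnion fun j : Fin w => Q p (c j)) (1 + 2 ^ a) (κ p) := by
    intro p
    refine (hm_lf (S p)).mul (h2 _ (fun j d => lf (Q p (c j)) d) (fun j => Q p (c j))
      (fun j => hm_lf _) fun i j hij => ?_) ?_
    · exact disjoint_of_subset_left (erase_subset _ _) (disjoint_of_subset_right (erase_subset _ _)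
        (disj_st2 hm p _ _ fun h => hij (hc h)))
    · rw [disjoint_biUnion_right]
      intro j _
      exact disj_st hm p (c j)
  -- monomials of `φ`
  have hφ0 : Hm (univ : Finset (Fin w)) (2 ^ a) φ := by
    have := h2 (Fin w) (fun j v => v j) (fun j => {j})
      (fun j => Hm.var (mem_singleton_self j)) (fun i j hij => by simpa using hij)
    exact this.mono (subset_univ _)
  obtain ⟨R, hR, hφR⟩ := exists_finset' hφ0
  let img : ZMod m → Finset (Fin w) → Finset (VE m w') := fun p T =>
    T.image fun j => (Sum.inr (p, c j) : VE m w')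
  have himg : ∀ p T, img p T ⊆ S p := by
    intro p T v hv
    rw [mem_image] at hv
    obtain ⟨j, -, rfl⟩ := hv
    exact hedge p _
  have hinj : ∀ p : ZMod m, Function.Injective fun j : Fin w => (Sum.inr (p, c j) : VE m w') := by
    intro p i j h
    have h' := Sum.inr.inj h
    exact hc (congrArg Prod.snd h')
  have himgc : ∀ p T, (img p T).card = T.card := fun p T => card_image_of_injective _ (hinj p)
  have hmon : ∀ p T d, mon (img p T) d = ∏ j ∈ T, d (Sum.inr (p, c j)) := by
    intro p T d
    exact prod_image fun i _ j _ h => hinj p h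
  have hφx : ∀ p d, φ (fun j => d (Sum.inr (p, c j))) = ∑ T ∈ R, mon (img p T) d := by
    intro p d
    rw [hφR]
    exact sum_congr rfl fun T _ => (hmon p T d).symm
  -- the free part, two degrees
  have hg1 : ∀ p, Hm (S p) (2 ^ a) (fun d => φ (fun j => d (Sum.inr (p, c j)))) := by
    intro p
    have e : (fun d : VE m w' → ZMod 2 => φ (fun j => d (Sum.inr (p, c j)))) =
        fun d => ∑ T ∈ R, mon (img p T) d := by
      ext d; exact hφx p d
    rw [e]
    refine Hm.sum _ fun T hT => ?_
    have := hm_mon (himg p T)
    rwa [himgc, (hR T hT).2] at this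
  have hg2 : ∀ p, Hm (S p) (2 ^ a + 1)
      (fun d => lf (S p) d * φ (fun j => d (Sum.inr (p, c j)))) := by
    intro p
    have e : (fun d : VE m w' → ZMod 2 => lf (S p) d * φ (fun j => d (Sum.inr (p, c j)))) =
        fun d => ∑ T ∈ R, lf (S p) d * mon (img p T) d := by
      ext d; rw [hφx p d, mul_sum]
    rw [e]
    refine Hm.sum _ fun T hT => ?_
    have hTc : (img p T).card = 2 ^ a := by rw [himgc, (hR T hT).2]
    have := hm_lf_mul_mon (himg p T) (by
      rw [hTc]
      exact (Nat.even_pow.2 ⟨even_two, by omega⟩))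
    rwa [hTc] at this
  -- the edge outputs
  have he : ∀ p j, Hm (S p ∪ S (p + del m w' j)) 2 (fun d =>
      d (Sum.inr (p, j)) + lf (S p) d * lf (S (p + del m w' j)) d) := by
    intro p j
    have hx : Hm {(Sum.inr (p, j) : VE m w')} 1 (fun d => d (Sum.inr (p, j))) :=
      Hm.var (mem_singleton_self _)
    have e : (fun d : VE m w' → ZMod 2 =>
        d (Sum.inr (p, j)) + lf (S p) d * lf (S (p + del m w' j)) d) = fun d =>
        d (Sum.inr (p, j)) * lf ((S p).erase (Sum.inr (p, j))) d +
          d (Sum.inr (p, j)) * lf (Q p j) d + lf ((S p).erase (Sum.inr (p, j))) d * lf (Q p j) d := by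
      ext d
      rw [hQ, lf_erase (hedge p j)]
      have : ∀ x s t : ZMod 2, x + s * t = x * (s + x) + x * (t + x) + (s + x) * (t + x) := by
        decide
      exact this _ _ _
    rw [e]
    have hd1 : Disjoint ({Sum.inr (p, j)} : Finset (VE m w')) ((S p).erase (Sum.inr (p, j))) := by
      rw [disjoint_singleton_left]
      exact notMem_erase _ _
    have hd2 : Disjoint ({Sum.inr (p, j)} : Finset (VE m w')) (Q p j) := by
      rw [disjoint_singleton_left]
      exact notMem_erase _ _
    have hd3 : Disjoint ((S p).erase (Sum.inr (p, j))) (Q p j) :=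
      disjoint_of_subset_left (erase_subset _ _) (disj_st hm p j)
    have s1 : ({Sum.inr (p, j)} : Finset (VE m w')) ⊆ S p ∪ S (p + del m w' j) := by
      rw [singleton_subset_iff]
      exact mem_union_left _ (hedge p j)
    have s2 : (S p).erase (Sum.inr (p, j)) ⊆ S p ∪ S (p + del m w' j) :=
      (erase_subset _ _).trans subset_union_left
    have s3 : Q p j ⊆ S p ∪ S (p + del m w' j) := (erase_subset _ _).trans subset_union_right
    exact (((hx.mul (hm_lf _) hd1).mono (union_subset s1 s2)).add
      ((hx.mul (hm_lf _) hd2).mono (union_subset s1 s3))).add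
      (((hm_lf _).mul (hm_lf _) hd3).mono (union_subset s2 s3))
  have hκ' := fun p => exists_finset' (hκ p)
  choose K hK hKf using hκ'
  have hg1' := fun p => exists_finset' (hg1 p)
  choose G1 hG1 hG1f using hg1'
  have hg2' := fun p => exists_finset' (hg2 p)
  choose G2 hG2 hG2f using hg2'
  have he' := fun p j => exists_finset' (he p j)
  choose E hE hEf using he'
  have hG12 : ∀ p, Disjoint (G1 p) (G2 p) := by
    intro p
    rw [disjoint_left]
    intro T h h'
    have h3 := (hG1 p T h).2
    have h4 := (hG2 p T h').2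
    omega
  -- the values
  have hval : ∀ (p : ZMod m) (d : VE m w' → ZMod 2),
      (∑ T ∈ K p, ∏ j ∈ T, (d j + if j ∈ B (Sum.inl p) then 1 else 0)) +
        ∑ T ∈ G1 p ∪ G2 p, ∏ j ∈ T, d j =
      lf (S p) d + φ (fun j => d (Sum.inr (p, c j)) +
        lf (S p) d * lf (S (p + del m w' (c j))) d) := by
    intro p d
    rw [sum_union (hG12 p), ← hG1f, ← hG2f, ← hKf p (fun j => d j +
      if j ∈ B (Sum.inl p) then 1 else 0)]
    show lf (S p) (fun j => d j + if j ∈ B (Sum.inl p) then 1 else 0) *
      φ (fun j => lf (Q p (c j)) (fun j => d j + if j ∈ B (Sum.inl p) then 1 else 0)) + _ = _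
    have hS0 : lf (S p) (fun j => d j + if j ∈ B (Sum.inl p) then 1 else 0) = lf (S p) d := by
      rw [lf_add_ind]
      have : S p ∩ B (Sum.inl p) = ∅ := by
        rw [eq_empty_iff_forall_notMem]
        intro v hv
        rw [mem_inter, hBmem] at hv
        obtain ⟨h3, j, rfl⟩ := hv
        rw [mem_st_inl] at h3
        exact del_ne_zero hm (c j) (by simpa using h3)
      rw [this, card_empty, Nat.cast_zero, add_zero]
    have hQ1 : ∀ j, lf (Q p (c j)) (fun j => d j + if j ∈ B (Sum.inl p) then 1 else 0) =
        lf (Q p (c j)) d + 1 := by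
      intro j
      rw [lf_add_ind]
      have : Q p (c j) ∩ B (Sum.inl p) = {Sum.inl (p + del m w' (c j))} := by
        ext v
        rw [mem_inter, hBmem, mem_singleton]
        constructor
        · rintro ⟨h3, i, rfl⟩
          have h3 := mem_of_mem_erase h3
          rw [mem_st_inl] at h3
          rw [h3]
        · rintro rfl
          refine ⟨mem_erase.2 ⟨by simp, ?_⟩, j, rfl⟩
          rw [mem_st_inl]
      rw [this, card_singleton, Nat.cast_one]
    rw [hS0]
    simp only [hQ1]
    rw [h1]
    rcases e4 (lf (S p) d) with h | h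
    · simp [h]
    · simp only [h, hQ, one_mul]
      have h5 : (fun j => lf (S (p + del m w' (c j))) d + d (Sum.inr (p, c j))) =
          fun j => d (Sum.inr (p, c j)) + lf (S (p + del m w' (c j))) d := by
        ext j; ring
      rw [h5]
      have h6 := e2 (φ fun j => d (Sum.inr (p, c j)))
      linear_combination h6
  refine ⟨{
    B := B
    K := Sum.elim K (fun _ => ∅)
    G := Sum.elim (fun p => G1 p ∪ G2 p) (fun e => E e.1 e.2)
    K_card := ?_
    K_sp := ?_
    G_card := ?_
    G_sp := ?_
    bij := ?_ }⟩
  · rintro (p | e) T hT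
    · have := (hK p T hT).2
      omega
    · exact absurd hT (notMem_empty T)
  · rintro (p | e) T hT (l | l) hl
    · have hTA := (hK p T hT).1
      have hlp : l ≠ p := fun h => hl (by rw [h])
      rw [card_le_one]
      intro u hu v hv
      rw [mem_inter, hBmem] at hu hv
      obtain ⟨hu, i, rfl⟩ := hu
      obtain ⟨hv, i', rfl⟩ := hv
      have hmem : ∀ q : ZMod m, (Sum.inl q : VE m w') ∈ T → q = p ∨
          ∃ j : Fin w, q = p + del m w' (c j) := by
        intro q hq
        have := hTA hq
        rw [mem_union, mem_biUnion] at this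
        rcases this with h | ⟨j, -, h⟩
        · left; rwa [mem_st_inl] at h
        · right
          refine ⟨j, ?_⟩
          have h3 := mem_of_mem_erase h
          rwa [mem_st_inl] at h3
      congr 1
      rcases hmem _ hu with h | ⟨j, h⟩ <;> rcases hmem _ hv with h' | ⟨j', h'⟩
      · rw [h, h']
      · exfalso
        exact del_add_ne hm (c i) (c j') (c i') (by linear_combination h - h')
      · exfalso
        exact del_add_ne hm (c i') (c j) (c i) (by linear_combination h' - h)
      · rcases del_sidon hm (c i) (c j') (c i') (c j) (by linear_combination h - h') with h3 | h3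
        · rw [h3.1]
        · exfalso
          apply hlp
          rw [h3.1] at h
          exact add_right_cancel h
    · rw [hBe, inter_empty, card_empty]; omega
    · exact absurd hT (notMem_empty T)
    · exact absurd hT (notMem_empty T)
  · rintro (p | e) T hT
    · rw [Sum.elim_inl, mem_union] at hT
      rcases hT with hT | hT
      · exact ⟨1, by rw [(hG1 p T hT).2]; norm_num⟩
      · exact ⟨0, by rw [(hG2 p T hT).2]; norm_num⟩
    · exact ⟨a, by rw [(hE e.1 e.2 T hT).2]; ring⟩
  · rintro (p | ⟨p, j⟩) T hT (l | l)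
    · have hTA : T ⊆ S p := by
        rw [Sum.elim_inl, mem_union] at hT
        rcases hT with hT | hT
        · exact (hG1 p T hT).1
        · exact (hG2 p T hT).1
      rw [card_le_one]
      intro u hu v hv
      rw [mem_inter, hBmem] at hu hv
      obtain ⟨hu, i, rfl⟩ := hu
      obtain ⟨hv, i', rfl⟩ := hv
      have h3 := hTA hu
      have h4 := hTA hv
      rw [mem_st_inl] at h3 h4
      rw [h3, h4]
    · rw [hBe, inter_empty, card_empty]; omega
    · have hTA := (hE p j T hT).1
      rw [card_le_one]
      intro u hu v hv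
      rw [mem_inter, hBmem] at hu hv
      obtain ⟨hu, i, rfl⟩ := hu
      obtain ⟨hv, i', rfl⟩ := hv
      have hmem : ∀ q : ZMod m, (Sum.inl q : VE m w') ∈ T → q = p ∨ q = p + del m w' j := by
        intro q hq
        have := hTA hq
        rw [mem_union, mem_st_inl, mem_st_inl] at this
        exact this
      congr 1
      rcases hmem _ hu with h | h <;> rcases hmem _ hv with h' | h'
      · rw [h, h']
      · exfalso
        exact del_add_ne hm (c i) j (c i') (by linear_combination h - h')
      · exfalso
        exact del_add_ne hm (c i') j (c i) (by linear_combination h' - h)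
      · rw [h, h']
    · rw [hBe, inter_empty, card_empty]; omega
  · rw [← Finite.injective_iff_bijective]
    intro d d' h
    have hG : ∀ p j, d (Sum.inr (p, j)) + lf (S p) d * lf (S (p + del m w' j)) d =
        d' (Sum.inr (p, j)) + lf (S p) d' * lf (S (p + del m w' j)) d' := by
      intro p j
      have h3 := congrFun h (Sum.inr (p, j))
      simp only [Sum.elim_inr, sum_empty, zero_add] at h3
      rw [hEf, hEf]
      exact h3
    have hSS : ∀ p, lf (S p) d = lf (S p) d' := by
      intro p
      have h3 := congrFun h (Sum.inl p)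
      simp only [Sum.elim_inl] at h3
      rw [hval, hval] at h3
      simp only [hG] at h3
      exact add_right_cancel h3
    have hE' : ∀ e, d (Sum.inr e) = d' (Sum.inr e) := by
      rintro ⟨p, j⟩
      have h3 := hG p j
      rw [hSS, hSS] at h3
      exact add_right_cancel h3
    ext (p | e)
    · have h3 : ∀ d : VE m w' → ZMod 2, lf (S p) d = d (Sum.inl p) +
          lf ((S p).erase (Sum.inl p)) d := by
        intro d
        have h4 : (Sum.inl p : VE m w') ∈ S p := by rw [mem_st_inl]
        exact (add_sum_erase _ _ h4).symm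
      have h4 := hSS p
      rw [h3, h3] at h4
      have h5 : lf ((S p).erase (Sum.inl p)) d = lf ((S p).erase (Sum.inl p)) d' := by
        refine sum_congr rfl fun v hv => ?_
        rcases v with q | e
        · rw [mem_erase, mem_st_inl] at hv
          exact absurd (by rw [hv.2]) hv.1
        · exact hE' e
      rw [h5] at h4
      exact add_right_cancel h4
    · exact hE' e

end Pool.Agent.K9h90.HB
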