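import Pool.Agent.H236R2.HB.Main

set_option autoImplicit false

open Finset Pool.Agent.H273R2.Bent Pool.Agent.H236R2.HB

namespace Pool.Agent.K9h90.HB

/-- monomials of a homogeneous function, with their supports -/
theorem exists_finset' {ι : Type} [DecidableEq ι] [Fintype ι] {A : Finset ι} {k : ℕ}
    {f : (ι → ZMod 2) → ZMod 2} (hf : Hm A k f) : ∃ S : Finset (Finset ι),
      (∀ s ∈ S, s ⊆ A ∧ s.card = k) ∧ ∀ x, f x = ∑ s ∈ S, ∏ i ∈ s, x i := by
  classical
  obtain ⟨c, hc⟩ := (Submodule.mem_span_range_iff_exists_fun (ZMod 2)).1 hf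
  refine ⟨(univ.filter fun s => c s ≠ 0).map (Function.Embedding.subtype _), ?_, ?_⟩
  · intro s hs
    simp only [mem_map, mem_filter, mem_univ, true_and] at hs
    obtain ⟨t, -, rfl⟩ := hs
    exact t.2
  · intro x
    rw [sum_map, ← hc, Finset.sum_apply, sum_filter]
    refine sum_congr rfl fun s _ => ?_
    have h2 : ∀ a : ZMod 2, a = 0 ∨ a = 1 := by decide
    rcases h2 (c s) with h | h
    · simp [h]
    · simp [h]

/-- the sum of the variables of `A` -/
def lf {ι : Type} (A : Finset ι) (d : ι → ZMod 2) : ZMod 2 := ∑ v ∈ A, d v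

section lf
variable {ι : Type} [DecidableEq ι]

theorem hm_lf (A : Finset ι) : Hm A 1 (fun d => lf A d) :=
  Hm.sum A fun _ hv => Hm.var hv

theorem lf_erase {A : Finset ι} {v : ι} (hv : v ∈ A) (d : ι → ZMod 2) :
    lf (A.erase v) d = lf A d + d v := by
  have h := add_sum_erase A d hv
  have h2 : ∀ a : ZMod 2, a + a = 0 := by decide
  have h3 := h2 (d v)
  simp only [lf]
  linear_combination h - h3

theorem lf_add_ind {A B : Finset ι} (d : ι → ZMod 2) :
    lf A (fun j => d j + if j ∈ B then 1 else 0) = lf A d + ((A ∩ B).card : ZMod 2) := by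
  simp only [lf]
  rw [sum_add_distrib, ← sum_filter, sum_const, nsmul_eq_mul, mul_one, filter_mem_eq_inter]

/-- monomial -/
def mon (U : Finset ι) (d : ι → ZMod 2) : ZMod 2 := ∏ v ∈ U, d v

theorem hm_mon {A U : Finset ι} (h : U ⊆ A) : Hm A U.card (fun d => mon U d) :=
  Submodule.subset_span ⟨⟨U, h, rfl⟩, rfl⟩

theorem var_mul_mon {U : Finset ι} {v : ι} (hv : v ∈ U) (d : ι → ZMod 2) :
    d v * mon U d = mon U d := by
  have h : mon U d = d v * ∏ i ∈ U.erase v, d i := (mul_prod_erase U d hv).symm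
  have h2 : ∀ a : ZMod 2, a * a = a := by decide
  rw [h, ← mul_assoc, h2]

theorem lf_mul_mon {A U : Finset ι} (hU : U ⊆ A) (he : Even U.card) (d : ι → ZMod 2) :
    lf A d * mon U d = lf (A \ U) d * mon U d := by
  have h1 : lf A d = lf (A \ U) d + lf U d := by
    simp only [lf]
    rw [sum_sdiff hU]
  have h2 : lf U d * mon U d = 0 := by
    simp only [lf]
    rw [sum_mul, sum_congr rfl fun v hv => var_mul_mon hv d, sum_const, nsmul_eq_mul]
    obtain ⟨c, hc⟩ := he
    rw [hc]
    push_cast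
    have h3 : ∀ a : ZMod 2, a + a = 0 := by decide
    rw [h3, zero_mul]
  rw [h1, add_mul, h2, add_zero]

theorem hm_lf_mul_mon {A U : Finset ι} (hU : U ⊆ A) (he : Even U.card) :
    Hm A (U.card + 1) (fun d => lf A d * mon U d) := by
  have e : (fun d : ι → ZMod 2 => lf A d * mon U d) = fun d => lf (A \ U) d * mon U d := by
    ext d
    exact lf_mul_mon hU he d
  rw [e, add_comm]
  exact (((hm_lf (A \ U)).mul (hm_mon (subset_refl U)) sdiff_disjoint)).mono
    (union_subset sdiff_subset hU)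

end lf

/-- a seed on an arbitrary index type -/
structure GSeed (k : ℕ) (ι : Type) [Fintype ι] [DecidableEq ι] where
  B : ι → Finset ι
  K : ι → Finset (Finset ι)
  G : ι → Finset (Finset ι)
  K_card : ∀ i, ∀ T ∈ K i, T.card + 1 = k
  K_sp : ∀ i, ∀ T ∈ K i, ∀ l, l ≠ i → (T ∩ B l).card ≤ 1
  G_card : ∀ i, ∀ T ∈ G i, ∃ x : ℕ, T.card + 2 ^ x = k
  G_sp : ∀ i, ∀ T ∈ G i, ∀ l, (T ∩ B l).card ≤ 1
  bij : Function.Bijective (fun d : ι → ZMod 2 => fun i : ι =>
    (∑ T ∈ K i, ∏ j ∈ T, (d j + if j ∈ B i then 1 else 0)) + ∑ T ∈ G i, ∏ j ∈ T, d j)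

/-- transport of a seed to `Fin r` -/
def GSeed.toSeed {k r : ℕ} {ι : Type} [Fintype ι] [DecidableEq ι] (s : GSeed k ι)
    (e : ι ≃ Fin r) : Seed k r where
  B i := (s.B (e.symm i)).map e.toEmbedding
  K i := (s.K (e.symm i)).map (Finset.mapEmbedding e.toEmbedding).toEmbedding
  G i := (s.G (e.symm i)).map (Finset.mapEmbedding e.toEmbedding).toEmbedding
  K_card := by
    intro i T hT
    rw [mem_map] at hT
    obtain ⟨U, hU, rfl⟩ := hT
    show (U.map e.toEmbedding).card + 1 = k
    rw [card_map]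
    exact s.K_card _ U hU
  K_sp := by
    intro i T hT l hl
    rw [mem_map] at hT
    obtain ⟨U, hU, rfl⟩ := hT
    show (U.map e.toEmbedding ∩ _).card ≤ 1
    rw [← map_inter, card_map]
    exact s.K_sp _ U hU _ fun h => hl (by simpa using h)
  G_card := by
    intro i T hT
    rw [mem_map] at hT
    obtain ⟨U, hU, rfl⟩ := hT
    show ∃ x : ℕ, (U.map e.toEmbedding).card + 2 ^ x = k
    rw [card_map]
    exact s.G_card _ U hU
  G_sp := by
    intro i T hT l
    rw [mem_map] at hT
    obtain ⟨U, hU, rfl⟩ := hT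
    show (U.map e.toEmbedding ∩ _).card ≤ 1
    rw [← map_inter, card_map]
    exact s.G_sp _ U hU _
  bij := by
    rw [← Finite.injective_iff_bijective]
    intro d d' h
    have key : ∀ (d : Fin r → ZMod 2) (i : ι),
        (∑ T ∈ (s.K (e.symm (e i))).map (Finset.mapEmbedding e.toEmbedding).toEmbedding, ∏ j ∈ T,
          (d j + if j ∈ (s.B (e.symm (e i))).map e.toEmbedding then 1 else 0)) +
        ∑ T ∈ (s.G (e.symm (e i))).map (Finset.mapEmbedding e.toEmbedding).toEmbedding,
          ∏ j ∈ T, d j =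
        (∑ T ∈ s.K i, ∏ j ∈ T, (d (e j) + if j ∈ s.B i then 1 else 0)) +
          ∑ T ∈ s.G i, ∏ j ∈ T, d (e j) := by
      intro d i
      rw [sum_map, sum_map, e.symm_apply_apply]
      congr 1
      · refine sum_congr rfl fun T _ => ?_
        show ∏ j ∈ T.map e.toEmbedding, _ = _
        rw [prod_map]
        refine prod_congr rfl fun j _ => ?_
        simp
      · refine sum_congr rfl fun T _ => ?_
        show ∏ j ∈ T.map e.toEmbedding, _ = _
        rw [prod_map]
        rfl
    have h1 : (fun i => d (e i)) = fun i => d' (e i) := by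
      apply s.bij.1
      ext i
      have h2 := congrFun h (e i)
      simp only at h2
      rw [key, key] at h2
      exact h2
    ext j
    have := congrFun h1 (e.symm j)
    simpa using this

end Pool.Agent.K9h90.HB
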